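import Pool.Agent.Work.MP_7ff5fd_co.Config

/-!
# Strictly convex bodies with `2 ^ (d - 1) + 2` pairwise touching translates

For every `d ≥ 4` there is a centrally symmetric strictly convex body `K` in `ℝ^d` with
`2 ^ (d - 1) + 2` translates any two of which touch.

The translation vectors are strictly antipodal points: for any two of them there is a linear
functional which has its maximum over the family only at the first and its minimum only at the
second one.  They are a perturbation of the vertices of the bipyramid over the `(d - 1)`-cube; see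
`Pool/Agent/Work/MP_7ff5fd_co/Defs.lean`.  The body is an intersection of balls.
-/

noncomputable section

namespace Pool.Agent.Results.MP_7ff5fd_co.TouchingLowerBound

theorem result (d : ℕ) (hd : 4 ≤ d) :
    ∃ K : Set (EuclideanSpace ℝ (Fin d)),
      IsCompact K ∧ Convex ℝ K ∧ (interior K).Nonempty ∧ StrictConvex ℝ K ∧ (∀ x ∈ K, -x ∈ K) ∧
      ∃ v : Fin (2 ^ (d - 1) + 2) → EuclideanSpace ℝ (Fin d), ∀ i j, i ≠ j →
        ((fun x => x + v i) '' K ∩ (fun x => x + v j) '' K).Nonempty ∧
        Disjoint (interior ((fun x => x + v i) '' K)) (interior ((fun x => x + v j) '' K)) := by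
  obtain ⟨v, hv⟩ := Pool.Agent.Touch.exists_points d hd
  obtain ⟨K, h1, h2, h3, h4, h5, h6⟩ := Pool.Agent.Touch.Sym.exists_body v hv
  exact ⟨K, h1, h2, h3, h4, h5, v, h6⟩

end Pool.Agent.Results.MP_7ff5fd_co.TouchingLowerBound
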