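import Pool.Agent.TouchU.Body

set_option autoImplicit false

namespace Pool.Agent.Results.MP_7ff5fd_co.TriangleModulus

open Set Module
open scoped Pointwise

/-- Let 0 < delta <= 1/4. There is eps > 0 such that for every d >= 2 and every convex body K in R^d
with the property that (u+v)/2 lies in (1-delta)(K-K) whenever u, v and u-v lie on the boundary of
K-K: every n pairwise touching translates of K satisfy n <= (2-eps)^d, and more precisely
n <= r (2 - 4 delta (1-1/r))^d for every positive integer r. -/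
theorem result : ∀ δ : ℝ, 0 < δ → δ ≤ 1 / 4 → ∃ ε : ℝ, 0 < ε ∧
    ∀ d : ℕ, 2 ≤ d → ∀ K : Set (EuclideanSpace ℝ (Fin d)),
      IsCompact K → Convex ℝ K → (interior K).Nonempty →
      (∀ u v : EuclideanSpace ℝ (Fin d), u ∈ frontier (K - K) → v ∈ frontier (K - K) →
        u - v ∈ frontier (K - K) → (1 / 2 : ℝ) • (u + v) ∈ (1 - δ) • (K - K)) →
      ∀ n : ℕ, ∀ v : Fin n → EuclideanSpace ℝ (Fin d),
        (∀ i j : Fin n, i ≠ j →
          ((fun x => x + v i) '' K ∩ (fun x => x + v j) '' K).Nonempty ∧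
          Disjoint (interior ((fun x => x + v i) '' K)) (interior ((fun x => x + v j) '' K))) →
        (n : ℝ) ≤ (2 - ε) ^ d ∧
          ∀ r : ℕ, 1 ≤ r → (n : ℝ) ≤ r * (2 - 4 * δ * (1 - 1 / r)) ^ d := by
  intro δ hδ hδ1
  obtain ⟨ε, hε, hbd⟩ := TouchU.exists_eps (δ := 2 * δ) (by linarith) (by linarith)
  refine ⟨ε, hε, fun d hd K hKc hK hint hmod n v ht => ?_⟩
  have hs := TouchU.sep_of_touch hKc hK hint (by linarith) hmod v ht
  have hdim : finrank ℝ (vectorSpan ℝ (range v)) ≤ d := by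
    refine (Submodule.finrank_le _).trans ?_
    rw [finrank_euclideanSpace, Fintype.card_fin]
  have hr : ∀ r : ℕ, 1 ≤ r → (n : ℝ) ≤ r * (2 - 4 * δ * (1 - 1 / r)) ^ d := by
    intro r hr
    have h := TouchU.general_bound (η := 2 * δ) (by linarith) (by linarith) hs hdim hr
    rwa [show 2 * (2 * δ) = 4 * δ by ring] at h
  refine ⟨?_, hr⟩
  apply hbd d hd n (TouchU.general_lt (η := 2 * δ) (by linarith) (by linarith) hs hdim hd)
  have h := hr 2 (by norm_num)
  rw [show (2 : ℝ) - 4 * δ * (1 - 1 / ((2 : ℕ) : ℝ)) = 2 - 2 * δ by push_cast; ring] at h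
  exact_mod_cast h

end Pool.Agent.Results.MP_7ff5fd_co.TriangleModulus
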